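import Pool.Agent.Helper33.QB.Defs
import Pool.Agent.Helper61.QB.Order

/-!
# Project QB, F3a: restrictions of conditions and the sets `V i`
-/

set_option autoImplicit false
set_option linter.unusedSectionVars false

namespace Pool.Agent.Helper33.QB

open Set

universe v

variable {Ω : Type} {I : Type v} {α : Ordinal.{0}}

theorem h55_acts_mono {G G' : I → Ω → Ω → Prop} (hG : ∀ i x y, G i x y → G' i x y)
    {g : FreeGroup I} {x y : Ω} (h : Acts G g x y) : Acts G' g x y := by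
  induction h with
  | one x => exact Acts.one x
  | fwd _ h2 ih => exact Acts.fwd ih (hG _ _ _ h2)
  | bwd _ h2 ih => exact Acts.bwd ih (hG _ _ _ h2)

theorem h55_acts_empty {G : I → Ω → Ω → Prop} (hG : ∀ i x y, ¬ G i x y) {g : FreeGroup I} {x y : Ω}
    (h : Acts G g x y) : g = 1 ∧ x = y := by
  cases h with
  | one => exact ⟨rfl, rfl⟩
  | fwd _ h2 => exact (hG _ _ _ h2).elim
  | bwd _ h2 => exact (hG _ _ _ h2).elim

section F3

variable [LinearOrder I] {p q r s : Cnd Ω I} {pn : ℕ → Cnd Ω I} {b : I → NmD Ω I} {i j k : I}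

theorem h55_res_h_of_lt (p : Cnd Ω I) {i j : I} (h : i < j) : (res p j).h i = p.h i := if_pos h

theorem h55_mem_res_S {p : Cnd Ω I} {i j : I} : i ∈ (res p j).S ↔ i ∈ p.S ∧ i < j := Iff.rfl

theorem res_res (hkj : k ≤ j) : res (res p j) k = res p k := by
  refine Cnd.ext rfl rfl rfl ?_ ?_
  · ext i
    rw [h55_mem_res_S, h55_mem_res_S, h55_mem_res_S]
    exact ⟨fun h => ⟨h.1.1, h.2⟩, fun h => ⟨⟨h.1, h.2.trans_le hkj⟩, h.2⟩⟩
  · funext i
    by_cases h : i < k
    · rw [h55_res_h_of_lt _ h, h55_res_h_of_lt _ h, h55_res_h_of_lt _ (h.trans_le hkj)]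
    · have h1 : (res (res p j) k).h i = id := if_neg h
      have h2 : (res p k).h i = id := if_neg h
      rw [h1, h2]

theorem Basic.res (h : Basic α p) (j : I) : Basic α (res p j) where
  cY := h.cY
  cS := h.cS.mono fun _ hi => hi.1
  gr := h.gr
  ra := h.ra
  r0 := h.r0
  ce := by
    intro i hi
    rw [h55_res_h_of_lt _ hi.2]
    exact h.ce i hi.1
  h0 := by
    intro i hi
    by_cases hij : i < j
    · rw [h55_res_h_of_lt _ hij]
      exact h.h0 i fun h' => hi ⟨h', hij⟩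
    · exact if_neg hij
  h1 := by
    intro i hi
    rw [h55_res_h_of_lt _ hi.2]
    exact h.h1 i hi.1

theorem res_eq_self (h : Basic α p) (hj : ∀ i ∈ p.S, i < j) : res p j = p := by
  refine Cnd.ext rfl rfl rfl ?_ ?_
  · ext i
    rw [h55_mem_res_S]
    exact ⟨fun h => h.1, fun h => ⟨h, hj i h⟩⟩
  · funext i
    by_cases hij : i < j
    · exact h55_res_h_of_lt _ hij
    · have h1 : (res p j).h i = id := if_neg hij
      rw [h1, h.h0 i fun hi => hij (hj i hi)]

theorem Le.res_of_le (h : Le q p) {j k : I} (hkj : k ≤ j) : Le (QB.res q j) (QB.res p k) where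
  cp := ⟨h.cp.sub, h.cp.ring, h.cp.cut, h.cp.rk⟩
  S := fun i hi => ⟨h.S hi.1, hi.2.trans_le hkj⟩
  h := by
    intro i hi x hx
    rw [h55_res_h_of_lt _ hi.2, h55_res_h_of_lt _ (hi.2.trans_le hkj)]
    exact h.h i hi.1 x hx
  out := by
    intro i hi x hx hx'
    rw [h55_res_h_of_lt _ (hi.2.trans_le hkj)]
    exact h.out i hi.1 x hx hx'
  fr := by
    refine fun g x hg => h.fr g x (h55_acts_mono ?_ hg)
    rintro i x y ⟨hi, hx, hx', hy⟩
    rw [h55_res_h_of_lt _ (hi.2.trans_le hkj)] at hy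
    exact ⟨hi.1, hx, hx', hy⟩
  pr := by
    refine fun K hK => (h.pr K hK).subset ?_
    rintro g ⟨a, ha, b, hb, hg⟩
    refine ⟨a, ha, b, hb, h55_acts_mono ?_ hg⟩
    rintro i x y ⟨hi, hx, hx', hy⟩
    rw [h55_res_h_of_lt _ (hi.2.trans_le hkj)] at hy
    exact ⟨hi.1, hx, hx', hy⟩

theorem Le.res (h : Le q p) (j : I) : Le (res q j) (res p j) := h.res_of_le le_rfl

theorem le_res (h : Basic α p) (j : I) : Le p (res p j) := by
  have hN : ∀ i x y, ¬ New (res p j) p i x y := by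
    rintro i x y ⟨_, hx, hx', _⟩
    exact hx' hx
  exact
    { cp := ⟨Subset.rfl, fun K => ⟨fun hK => ⟨hK, h.gr.sub K hK⟩, fun hK => hK.1⟩, fun K hK => by
        have h1 : K ∩ p.Y = K := inter_eq_left.2 (h.gr.sub K hK)
        have h2 : K ∩ (QB.res p j).Y = K := h1
        rw [h2]
        exact hK, fun _ _ => rfl⟩
      S := fun i hi => hi.1
      h := fun i hi x _ => by rw [h55_res_h_of_lt _ hi.2]
      out := fun i _ x hx hx' => (hx' hx).elim
      fr := fun g x hg => (h55_acts_empty hN hg).1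
      pr := fun K _ => (Set.finite_singleton (1 : FreeGroup I)).subset (by
        rintro g ⟨x, _, y, _, hg⟩
        exact (h55_acts_empty hN hg).1) }

variable [WellFoundedLT I]

theorem V.basic (h : p ∈ V α b i) : Basic α p := (mem_V.1 h).1

theorem V.letters (h : p ∈ V α b i) : ∀ l ∈ p.S, l < i := fun l hl => ((mem_V.1 h).2 l hl).1

theorem V.res_mem (h : p ∈ V α b i) (j : I) : res p j ∈ V α b j := by
  refine mem_V.2 ⟨(V.basic h).res j, fun l hl => ?_⟩
  obtain ⟨_, h2, h3, h4⟩ := (mem_V.1 h).2 l hl.1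
  refine ⟨hl.2, h2, ?_, ?_⟩
  · rw [res_res hl.2.le]
    exact h3
  · rw [res_res hl.2.le, h55_res_h_of_lt _ hl.2]
    exact h4

theorem V.of_letters (h : p ∈ V α b j) (hl : ∀ l ∈ p.S, l < i) : p ∈ V α b i :=
  mem_V.2 ⟨V.basic h, fun l hl' => ⟨hl l hl', ((mem_V.1 h).2 l hl').2⟩⟩

theorem V.mono (hij : i ≤ j) : V α b i ⊆ V α b j := fun _ h =>
  V.of_letters h fun l hl => (V.letters h l hl).trans_le hij

/-- A stronger condition with the same carrier still decides the name. -/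
theorem Dec.mono_le {d : NmD Ω I} (h : Dec d p) (hq : Basic α q) (hp : Basic α p) (hqp : Le q p)
    (hY : q.Y = p.Y) : Dec d q := by
  refine ⟨Le.trans' hq hp hqp h.1, fun a ha => ?_⟩
  rw [hY] at ha
  obtain ⟨ε, p', h1, h2⟩ := h.2 a ha
  exact ⟨ε, p', h1, Le.trans' hq hp hqp h2⟩

theorem ev_mono {d : NmD Ω I} (hq : Basic α q) (hp : Basic α p) (hqp : Le q p) :
    ev d p ⊆ ev d q := by
  rintro a ⟨ha, p', h1, h2⟩
  exact ⟨hqp.cp.sub ha, p', h1, Le.trans' hq hp hqp h2⟩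

/-- Decided values do not change. -/
theorem ev_inter {d : NmD Ω I} {P : Set (Cnd Ω I)} (hn : Nice d P) (hb : ∀ p ∈ P, Basic α p)
    (hq : q ∈ P) (hpb : Basic α p) (hqp : Le q p) (hp : Dec d p) : ev d q ∩ p.Y = ev d p := by
  refine Subset.antisymm ?_ fun a ha => ⟨ev_mono (hb q hq) hpb hqp ha, ha.1⟩
  rintro a ⟨⟨_, p', h1, h2⟩, ha⟩
  obtain ⟨ε, p'', h3, h4⟩ := hp.2 a ha
  cases ε with
  | true => exact ⟨ha, p'', h3, h4⟩
  | false => exact (hn.cons q hq a p' p'' h1 h3 h2 (Le.trans' (hb q hq) hpb hqp h4)).elim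

end F3

end Pool.Agent.Helper33.QB
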