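import Pool.Agent.Helper55.QB.Tree
import Pool.Agent.Helper55.QB.Res
import Pool.Agent.Helper68.QB.ExtAll
import Pool.Agent.Helper61.QB.Order
import Pool.Agent.Helper90.QB.Bel1
import Pool.Agent.Helper90.QB.Bel2

/-!
# Project QB, O1: first density results
-/

set_option autoImplicit false
set_option linter.unusedSectionVars false

namespace Pool.Agent.Helper33.QB

open Set

universe v

theorem h55_gr_congr {Ω : Type} {Y : Set Ω} {R : Set (Set Ω)} {r r' : Ω → Ordinal.{0}}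
    (h : GR Y R r) (hr : ∀ x ∈ Y, r x = r' x) : GR Y R r' where
  sub := h.sub
  emp := h.emp
  un := h.un
  df := h.df
  cov := h.cov
  sep := h.sep
  top := by
    intro K hK hne
    have hs := h.sub K hK
    obtain ⟨x, hx, h1, h2⟩ := h.top K hK hne
    refine ⟨x, hx, fun y hy => ?_, h2.subset ?_⟩
    · rw [← hr x (hs hx), ← hr y (hs hy)]
      exact h1 y hy
    · rintro y ⟨hy, hy'⟩
      rw [← hr x (hs hx), ← hr y (hs hy)] at hy'
      exact ⟨hy, hy'⟩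
  ex := by
    intro K hK x hx γ hγ
    have hs := h.sub K hK
    rw [← hr x (hs hx)] at hγ
    obtain ⟨y, hy, h1, h2⟩ := h.ex K hK x hx γ hγ
    refine ⟨y, hy, h1, ?_⟩
    rw [← hr y (hs hy)]
    exact h2

theorem h55_sum_gr {Ω : Type} {Y1 Y2 : Set Ω} {R1 R2 : Set (Set Ω)} {r : Ω → Ordinal.{0}}
    (h1 : GR Y1 R1 r) (h2 : GR Y2 R2 r) (hd : ∀ x ∈ Y1, x ∉ Y2) :
    GR (Y1 ∪ Y2) {K | K ⊆ Y1 ∪ Y2 ∧ K ∩ Y1 ∈ R1 ∧ K ∩ Y2 ∈ R2} r := by
  have hm1 : ∀ K ∈ R1, K ∈ {K | K ⊆ Y1 ∪ Y2 ∧ K ∩ Y1 ∈ R1 ∧ K ∩ Y2 ∈ R2} := by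
    intro K hK
    have hs := h1.sub K hK
    have e1 : K ∩ Y1 = K := inter_eq_left.2 hs
    have e2 : K ∩ Y2 = ∅ := by
      ext x
      simp only [mem_inter_iff, mem_empty_iff_false, iff_false]
      exact fun hx => hd x (hs hx.1) hx.2
    refine ⟨hs.trans subset_union_left, ?_, ?_⟩
    · rw [e1]; exact hK
    · rw [e2]; exact h2.emp
  have hm2 : ∀ K ∈ R2, K ∈ {K | K ⊆ Y1 ∪ Y2 ∧ K ∩ Y1 ∈ R1 ∧ K ∩ Y2 ∈ R2} := by
    intro K hK
    have hs := h2.sub K hK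
    have e1 : K ∩ Y2 = K := inter_eq_left.2 hs
    have e2 : K ∩ Y1 = ∅ := by
      ext x
      simp only [mem_inter_iff, mem_empty_iff_false, iff_false]
      exact fun hx => hd x hx.2 (hs hx.1)
    refine ⟨hs.trans subset_union_right, ?_, ?_⟩
    · rw [e2]; exact h1.emp
    · rw [e1]; exact hK
  have hdf : ∀ K ∈ {K | K ⊆ Y1 ∪ Y2 ∧ K ∩ Y1 ∈ R1 ∧ K ∩ Y2 ∈ R2},
      ∀ K' ∈ {K | K ⊆ Y1 ∪ Y2 ∧ K ∩ Y1 ∈ R1 ∧ K ∩ Y2 ∈ R2},
      K \ K' ∈ {K | K ⊆ Y1 ∪ Y2 ∧ K ∩ Y1 ∈ R1 ∧ K ∩ Y2 ∈ R2} := by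
    rintro K ⟨hK, hK1, hK2⟩ K' ⟨hK', hK1', hK2'⟩
    have e1 : (K \ K') ∩ Y1 = (K ∩ Y1) \ (K' ∩ Y1) := by
      ext x; simp only [mem_inter_iff, mem_sdiff]; tauto
    have e2 : (K \ K') ∩ Y2 = (K ∩ Y2) \ (K' ∩ Y2) := by
      ext x; simp only [mem_inter_iff, mem_sdiff]; tauto
    refine ⟨fun x hx => hK hx.1, ?_, ?_⟩
    · rw [e1]; exact h1.df _ hK1 _ hK1'
    · rw [e2]; exact h2.df _ hK2 _ hK2'
  refine ⟨fun K hK => hK.1, hm1 _ h1.emp, ?_, hdf, ?_, ?_, ?_, ?_⟩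
  · rintro K ⟨hK, hK1, hK2⟩ K' ⟨hK', hK1', hK2'⟩
    refine ⟨union_subset hK hK', ?_, ?_⟩
    · rw [union_inter_distrib_right]; exact h1.un _ hK1 _ hK1'
    · rw [union_inter_distrib_right]; exact h2.un _ hK2 _ hK2'
  · rintro x (hx | hx)
    · obtain ⟨K, hK, hxK⟩ := h1.cov x hx
      exact ⟨K, hm1 K hK, hxK⟩
    · obtain ⟨K, hK, hxK⟩ := h2.cov x hx
      exact ⟨K, hm2 K hK, hxK⟩
  · rintro x (hx | hx) y (hy | hy) hxy
    · obtain ⟨K, hK, hxK⟩ := h1.sep x hx y hy hxy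
      exact ⟨K, hm1 K hK, hxK⟩
    · obtain ⟨K, hK, hxK⟩ := h1.cov x hx
      exact ⟨K, hm1 K hK, hxK, fun h => hd y (h1.sub K hK h) hy⟩
    · obtain ⟨K, hK, hxK⟩ := h2.cov x hx
      exact ⟨K, hm2 K hK, hxK, fun h => hd y hy (h2.sub K hK h)⟩
    · obtain ⟨K, hK, hxK⟩ := h2.sep x hx y hy hxy
      exact ⟨K, hm2 K hK, hxK⟩
  · rintro K ⟨hK, hK1, hK2⟩ hne
    have e : K = (K ∩ Y1) ∪ (K ∩ Y2) := by
      rw [← inter_union_distrib_left]
      exact (inter_eq_left.2 hK).symm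
    have h3 : H55Top r ((K ∩ Y1) ∪ (K ∩ Y2)) :=
      h55_top_union (h1.top _ hK1) (h2.top _ hK2)
    rw [← e] at h3
    exact h3 hne
  · rintro K ⟨hK, hK1, hK2⟩ x hx γ hγ
    rcases hK hx with hx1 | hx1
    · obtain ⟨y, hy, h3, h4⟩ := h1.ex _ hK1 x ⟨hx, hx1⟩ γ hγ
      exact ⟨y, hy.1, h3, h4⟩
    · obtain ⟨y, hy, h3, h4⟩ := h2.ex _ hK2 x ⟨hx, hx1⟩ γ hγ
      exact ⟨y, hy.1, h3, h4⟩

theorem h55_image_gr {X Ω : Type} {Y : Set X} {R : Set (Set X)} {r : X → Ordinal.{0}}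
    (h : GR Y R r) {e : X → Ω} (he : Function.Injective e) {r' : Ω → Ordinal.{0}}
    (hr : ∀ x ∈ Y, r' (e x) = r x) : GR (e '' Y) {O | ∃ K ∈ R, O = e '' K} r' := by
  refine ⟨?_, ⟨∅, h.emp, (image_empty e).symm⟩, ?_, ?_, ?_, ?_, ?_, ?_⟩
  · rintro _ ⟨K, hK, rfl⟩
    exact image_mono (h.sub K hK)
  · rintro _ ⟨K, hK, rfl⟩ _ ⟨K', hK', rfl⟩
    exact ⟨K ∪ K', h.un K hK K' hK', (image_union e K K').symm⟩
  · rintro _ ⟨K, hK, rfl⟩ _ ⟨K', hK', rfl⟩
    exact ⟨K \ K', h.df K hK K' hK', (image_sdiff he K K').symm⟩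
  · rintro _ ⟨x, hx, rfl⟩
    obtain ⟨K, hK, hxK⟩ := h.cov x hx
    exact ⟨e '' K, ⟨K, hK, rfl⟩, mem_image_of_mem e hxK⟩
  · rintro _ ⟨x, hx, rfl⟩ _ ⟨y, hy, rfl⟩ hxy
    obtain ⟨K, hK, hxK, hyK⟩ := h.sep x hx y hy fun h => hxy (congrArg e h)
    refine ⟨e '' K, ⟨K, hK, rfl⟩, mem_image_of_mem e hxK, ?_⟩
    rintro ⟨z, hz, hzy⟩
    exact hyK (he hzy ▸ hz)
  · rintro _ ⟨K, hK, rfl⟩ hne
    have hs := h.sub K hK
    obtain ⟨x, hx, h1, h2⟩ := h.top K hK (image_nonempty.1 hne)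
    refine ⟨e x, mem_image_of_mem e hx, ?_, (h2.image e).subset ?_⟩
    · rintro _ ⟨y, hy, rfl⟩
      rw [hr x (hs hx), hr y (hs hy)]
      exact h1 y hy
    · rintro _ ⟨⟨y, hy, rfl⟩, h3⟩
      rw [hr x (hs hx), hr y (hs hy)] at h3
      exact ⟨y, ⟨hy, h3⟩, rfl⟩
  · rintro _ ⟨K, hK, rfl⟩ _ ⟨x, hx, rfl⟩ γ hγ
    have hs := h.sub K hK
    rw [hr x (hs hx)] at hγ
    obtain ⟨y, hy, h1, h2⟩ := h.ex K hK x hx γ hγ
    refine ⟨e y, mem_image_of_mem e hy, fun h => h1 (he h), ?_⟩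
    rw [hr y (hs hy)]
    exact h2

section O

variable {Ω : Type} {I : Type v} {α : Ordinal.{0}}

variable [LinearOrder I] [WellFoundedLT I] {b : I → NmD Ω I} {i m : I} {p : Cnd Ω I}

theorem dense_compat [Uncountable Ω] (hα : Ind α) {i j : I} (hji : j ≤ i) {r : Cnd Ω I}
    (hp : p ∈ V α b i) (hr : r ∈ V α b j) (hle : Le r (res p j)) :
    ∃ q ∈ V α b i, Le q p ∧ Le (res q j) r := by
  have hpb := V.basic hp
  have hrb := V.basic hr
  obtain ⟨q, hq, h1, h2, -⟩ := ext_all hα b i (fun _ => p) p (fun _ => ⟨i, hp⟩)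
    (fun _ => Le.refl' hpb.gr) (semi_const hpb) j hji r hr (bel_const hpb hrb hle) ∅ hrb.gr.emp
  refine ⟨q, hq, ?_, h2⟩
  have h3 := bel_le (semi_const hpb) (fun _ => hpb) (fun _ => Le.refl' hpb.gr) (V.basic hq) h1 0
  rwa [res_eq_self hpb (V.letters hp)] at h3

/-- Adding a space. -/
theorem h55_add [Uncountable Ω] (hα : Ind α) (hp : p ∈ V α b i) {Z : Set Ω}
    {RZ : Set (Set Ω)} {rZ : Ω → Ordinal.{0}} (hZ : GR Z RZ rZ) (cZ : Z.Countable)
    (hd : ∀ x ∈ p.Y, x ∉ Z) (hr : ∀ x, rZ x < α) :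
    ∃ q ∈ V α b i, Le q p ∧ Z ⊆ q.Y ∧ ∀ x ∈ Z, q.r x = rZ x := by
  classical
  have hpb := V.basic hp
  obtain ⟨j0, hj0⟩ : ∃ j0 : I, ∀ j : I, j0 ≤ j := by
    refine ⟨wellFounded_lt.min (Set.univ : Set I) ⟨i, trivial⟩, fun j => ?_⟩
    exact not_lt.1 (wellFounded_lt.not_lt_min (Set.univ : Set I) (mem_univ j))
  let r' : Ω → Ordinal.{0} := fun x => if x ∈ p.Y then p.r x else if x ∈ Z then rZ x else 0
  have hr1 : ∀ x ∈ p.Y, r' x = p.r x := fun x hx => if_pos hx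
  have hr2 : ∀ x ∈ Z, r' x = rZ x := fun x hx => by
    have h1 : x ∉ p.Y := fun h => hd x h hx
    simp only [r', if_neg h1, if_pos hx]
  let r0 : Cnd Ω I :=
    { Y := p.Y ∪ Z
      R := {K | K ⊆ p.Y ∪ Z ∧ K ∩ p.Y ∈ p.R ∧ K ∩ Z ∈ RZ}
      r := r'
      S := ∅
      h := fun _ => id }
  have hg1 : GR p.Y p.R r' := h55_gr_congr hpb.gr fun x hx => (hr1 x hx).symm
  have hg2 : GR Z RZ r' := h55_gr_congr hZ fun x hx => (hr2 x hx).symm
  have hb0 : Basic α r0 :=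
    { cY := hpb.cY.union cZ
      cS := Set.countable_empty
      gr := h55_sum_gr hg1 hg2 hd
      ra := by
        intro x
        change r' x < α
        simp only [r']
        split_ifs
        · exact hpb.ra x
        · exact hr x
        · exact zero_lt_one.trans hα.one
      r0 := by
        intro x hx
        have h1 : x ∉ p.Y := fun h => hx (Or.inl h)
        have h2 : x ∉ Z := fun h => hx (Or.inr h)
        change r' x = 0
        simp only [r', if_neg h1, if_neg h2]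
      ce := fun _ hi => hi.elim
      h0 := fun _ _ => rfl
      h1 := fun _ hi => hi.elim }
  have hV0 : r0 ∈ V α b j0 := mem_V.2 ⟨hb0, fun _ hj => hj.elim⟩
  have hSe : ∀ l, l ∉ (res p j0).S := fun l hl => (not_lt.2 (hj0 l)) hl.2
  have hN : ∀ i x y, ¬ New (res p j0) r0 i x y := fun l x y h => hSe l h.1
  have hempty : ∀ K : Set Ω, K ⊆ p.Y → K ∩ Z = ∅ := by
    intro K hK
    ext x
    simp only [mem_inter_iff, mem_empty_iff_false, iff_false]
    exact fun hx => hd x (hK hx.1) hx.2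
  have hle0 : Le r0 (res p j0) :=
    { cp :=
        { sub := subset_union_left
          ring := by
            intro K
            change K ∈ p.R ↔ (K ⊆ p.Y ∪ Z ∧ K ∩ p.Y ∈ p.R ∧ K ∩ Z ∈ RZ) ∧ K ⊆ p.Y
            constructor
            · intro hK
              have hs := hpb.gr.sub K hK
              refine ⟨⟨hs.trans subset_union_left, ?_, ?_⟩, hs⟩
              · rw [inter_eq_left.2 hs]; exact hK
              · rw [hempty K hs]; exact hZ.emp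
            · rintro ⟨⟨_, h2, _⟩, hs⟩
              rwa [inter_eq_left.2 hs] at h2
          cut := by
            rintro K ⟨hK, h2, h3⟩
            change (K ∩ p.Y ⊆ p.Y ∪ Z ∧ (K ∩ p.Y) ∩ p.Y ∈ p.R ∧ (K ∩ p.Y) ∩ Z ∈ RZ)
            refine ⟨fun x hx => Or.inl hx.2, ?_, ?_⟩
            · rw [inter_assoc, inter_self]; exact h2
            · rw [hempty _ inter_subset_right]; exact hZ.emp
          rk := hr1 }
      S := fun l hl => (hSe l hl).elim
      h := fun l hl => (hSe l hl).elim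
      out := fun l hl => (hSe l hl).elim
      fr := fun g x hg => (h55_acts_empty hN hg).1
      pr := fun K _ => (Set.finite_singleton (1 : FreeGroup I)).subset (by
        rintro g ⟨x, _, y, _, hg⟩
        exact (h55_acts_empty hN hg).1) }
  obtain ⟨q, hq, h1, h2⟩ := dense_compat hα (hj0 i) hp hV0 hle0
  refine ⟨q, hq, h1, fun x hx => h2.cp.sub (Or.inr hx), fun x hx => ?_⟩
  have h3 := h2.cp.rk x (Or.inr hx)
  exact h3.trans (hr2 x hx)

theorem dense_point [Uncountable Ω] (hα : Ind α) (hp : p ∈ V α b i) (a : Ω) :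
    ∃ q ∈ V α b i, Le q p ∧ a ∈ q.Y := by
  by_cases ha : a ∈ p.Y
  · exact ⟨p, hp, Le.refl' (V.basic hp).gr, ha⟩
  have hG : GR ({a} : Set Ω) {K | K ⊆ {a}} (fun _ => 0) :=
    { sub := fun K hK => hK
      emp := empty_subset _
      un := fun K hK K' hK' => union_subset hK hK'
      df := fun K hK K' _ => (sdiff_subset).trans hK
      cov := fun x hx => ⟨{a}, Subset.rfl, hx⟩
      sep := fun x hx y hy hxy => (hxy (hx.trans hy.symm)).elim
      top := by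
        rintro K hK ⟨x, hx⟩
        exact ⟨x, hx, fun _ _ => le_rfl, (Set.finite_singleton a).subset fun y hy => hK hy.1⟩
      ex := fun K hK x hx γ hγ => (not_lt_bot hγ).elim }
  obtain ⟨q, hq, h1, h2, -⟩ := h55_add hα hp hG (Set.countable_singleton a)
    (fun x hx hx' => ha (by rw [mem_singleton_iff] at hx'; exact hx' ▸ hx))
    (fun _ => zero_lt_one.trans hα.one)
  exact ⟨q, hq, h1, h2 rfl⟩

theorem dense_rank [Uncountable Ω] (hα : Ind α) (hp : p ∈ V α b i) {β : Ordinal.{0}}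
    (hβ : β < α) : ∃ q ∈ V α b i, Le q p ∧ ∃ x ∈ q.Y, x ∉ p.Y ∧ q.r x = β := by
  classical
  have hpb := V.basic hp
  -- an enumeration of the ordinals below `α`
  obtain ⟨g, hg⟩ : ∃ g : ℕ → Ordinal.{0}, Iio α = range g :=
    hα.ctb.exists_eq_range ⟨β, hβ⟩
  -- an injection into the complement
  obtain ⟨e⟩ : Nonempty (List (ℕ × ℕ) ↪ ↥(p.Yᶜ)) := by
    have h1 : Infinite ↥(p.Yᶜ) := by
      have h2 : ¬ (p.Yᶜ).Countable := by
        intro h3
        have h4 : (Set.univ : Set Ω).Countable := by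
          rw [← union_compl_self p.Y]
          exact hpb.cY.union h3
        exact not_countable (Set.countable_univ_iff.1 h4)
      exact Set.infinite_coe_iff.2 fun h3 => h2 h3.countable
    exact ⟨(Encodable.encode' (List (ℕ × ℕ))).trans (Infinite.natEmbedding ↥(p.Yᶜ))⟩
  let e' : List (ℕ × ℕ) → Ω := fun t => (e t : Ω)
  have he' : Function.Injective e' := Subtype.val_injective.comp e.injective
  let rZ : Ω → Ordinal.{0} := fun x => if h : ∃ t, H55Good g β t ∧ e' t = x then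
    h55rk g β h.choose else 0
  have hrk : ∀ t, H55Good g β t → h55rk g β t < α := fun t ht =>
    (h55_rk_le (t := []) List.nil_suffix ht).trans_lt hβ
  have hrZ : ∀ t ∈ {t | H55Good g β t}, rZ (e' t) = h55rk g β t := by
    intro t ht
    have h : ∃ t', H55Good g β t' ∧ e' t' = e' t := ⟨t, ht, rfl⟩
    have h1 : h.choose = t := he' h.choose_spec.2
    simp only [rZ, dif_pos h]
    rw [h1]
  have hZ := h55_image_gr (h55_tree_gr (g := g) (β := β) (by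
    intro γ hγ
    have h1 : γ ∈ Iio α := hγ.trans hβ
    rw [hg] at h1
    exact h1)) he' hrZ
  obtain ⟨q, hq, h1, h2, h3⟩ := h55_add hα hp hZ (Set.to_countable _ |>.image e')
    (by
      rintro x hx ⟨t, _, rfl⟩
      exact (e t).2 hx)
    (by
      intro x
      simp only [rZ]
      split_ifs with h
      · exact hrk _ h.choose_spec.1
      · exact zero_lt_one.trans hα.one)
  have hm : e' [] ∈ e' '' {t | H55Good g β t} := mem_image_of_mem e' trivial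
  exact ⟨q, hq, h1, e' [], h2 hm, (e []).2, (h3 _ hm).trans (hrZ [] trivial)⟩

end O

end Pool.Agent.Helper33.QB
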