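import Pool.Agent.Helper33.QB.Frame
import Pool.Agent.Helper15.QB.VUnion
import Pool.Agent.Helper55.QB.Dense1
import Pool.Agent.Helper55.QB.Res

/-!
# Project QB, P1: countable sequences, points and ranks in the forcing poset
-/

set_option autoImplicit false

namespace Pool.Agent.Helper33.QB

open Set

variable {Ω : Type} {α : Ordinal.{0}} {b : Ordinal.{0} → NmD Ω Ordinal.{0}}

theorem cp_seq {pn : ℕ → CP Ω α b} (hle : ∀ n, pn (n + 1) ≤ pn n) :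
    ∃ q : CP Ω α b, (∀ n, q ≤ pn n) ∧ q.1.Y = ⋃ n, (pn n).1.Y := by
  choose i hi using fun n => (pn n).2
  have hij : ∀ n, i n ≤ ⨆ n, i n := fun n => Ordinal.le_iSup i n
  obtain ⟨q, hq, hu⟩ := V.union (pn := fun n => (pn n).1) (fun n => V.mono (hij n) (hi n)) hle
  exact ⟨⟨q, _, hq⟩, hu.le, hu.Y⟩

theorem cp_point [Uncountable Ω] (hα : Ind α) (p : CP Ω α b) (x : Ω) :
    ∃ q ≤ p, x ∈ q.1.Y := by
  obtain ⟨i, hi⟩ := p.2
  obtain ⟨q, hq, hle, hx⟩ := dense_point hα hi x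
  exact ⟨⟨q, i, hq⟩, hle, hx⟩

theorem cp_rank [Uncountable Ω] (hα : Ind α) (p : CP Ω α b) {β : Ordinal.{0}} (hβ : β < α) :
    ∃ q ≤ p, ∃ x ∈ q.1.Y, x ∉ p.1.Y ∧ q.1.r x = β := by
  obtain ⟨i, hi⟩ := p.2
  obtain ⟨q, hq, hle, x, hx, hxp, hr⟩ := dense_rank hα hi hβ
  exact ⟨⟨q, i, hq⟩, hle, x, hx, hxp, hr⟩

end Pool.Agent.Helper33.QB
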