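import Pool.Agent.Helper33.QB.Defs

/-!
# Project QB: a countable space with a point of given rank
-/

set_option autoImplicit false

namespace Pool.Agent.Helper33.QB

open Set

/-- The set `A` has a point of maximal rank and only finitely many of them, unless it is empty. -/
def H55Top {X : Type} (r : X → Ordinal.{0}) (A : Set X) : Prop :=
  A.Nonempty → ∃ x ∈ A, (∀ y ∈ A, r y ≤ r x) ∧ {y | y ∈ A ∧ r y = r x}.Finite

theorem h55_top_empty {X : Type} (r : X → Ordinal.{0}) : H55Top r ∅ := fun h =>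
  (not_nonempty_empty h).elim

theorem h55_top_union {X : Type} {r : X → Ordinal.{0}} {A B : Set X} (hA : H55Top r A)
    (hB : H55Top r B) : H55Top r (A ∪ B) := by
  intro hne
  rcases A.eq_empty_or_nonempty with rfl | hA'
  · rw [empty_union] at hne ⊢
    exact hB hne
  rcases B.eq_empty_or_nonempty with rfl | hB'
  · rw [union_empty]
    exact hA hA'
  obtain ⟨x, hx, hx1, hx2⟩ := hA hA'
  obtain ⟨y, hy, hy1, hy2⟩ := hB hB'
  have key : ∀ z, (∀ a ∈ A, r a ≤ r z) → (∀ a ∈ B, r a ≤ r z) →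
      {a | a ∈ A ∪ B ∧ r a = r z}.Finite := by
    intro z h1 h2
    refine (hx2.union hy2).subset ?_
    rintro a ⟨ha | ha, hz⟩
    · exact Or.inl ⟨ha, le_antisymm (hx1 a ha) (hz ▸ h1 x hx)⟩
    · exact Or.inr ⟨ha, le_antisymm (hy1 a ha) (hz ▸ h2 y hy)⟩
  rcases le_total (r x) (r y) with h | h
  · have h1 : ∀ a ∈ A, r a ≤ r y := fun a ha => (hx1 a ha).trans h
    exact ⟨y, Or.inr hy, fun a ha => ha.elim (h1 a) (hy1 a), key y h1 hy1⟩
  · have h1 : ∀ a ∈ B, r a ≤ r x := fun a ha => (hy1 a ha).trans h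
    exact ⟨x, Or.inl hx, fun a ha => ha.elim (hx1 a) (h1 a), key x hx1 h1⟩

theorem h55_top_biUnion {X J : Type} {r : X → Ordinal.{0}} (F : Finset J) (A : J → Set X)
    (h : ∀ j ∈ F, H55Top r (A j)) : H55Top r (⋃ j ∈ F, A j) := by
  classical
  induction F using Finset.induction_on with
  | empty => simpa using h55_top_empty r
  | insert a s _ ih =>
    rw [Finset.set_biUnion_insert]
    exact h55_top_union (h a (Finset.mem_insert_self _ _))
      (ih fun j hj => h j (Finset.mem_insert_of_mem hj))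

/-- The rank of a point of the tree. -/
def h55rk (g : ℕ → Ordinal.{0}) (β : Ordinal.{0}) : List (ℕ × ℕ) → Ordinal.{0}
  | [] => β
  | a :: _ => g a.2

/-- The points of the tree: sequences with decreasing ranks. -/
def H55Good (g : ℕ → Ordinal.{0}) (β : Ordinal.{0}) : List (ℕ × ℕ) → Prop
  | [] => True
  | a :: t => g a.2 < h55rk g β t ∧ H55Good g β t

section Tree

variable {g : ℕ → Ordinal.{0}} {β : Ordinal.{0}}

theorem h55_good_suffix {s t : List (ℕ × ℕ)} (h : t <:+ s) (hs : H55Good g β s) :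
    H55Good g β t := by
  induction s with
  | nil =>
    rw [List.suffix_nil] at h
    subst h
    trivial
  | cons a s ih =>
    rcases List.suffix_cons_iff.1 h with rfl | h
    · exact hs
    · exact ih h hs.2

theorem h55_rk_lt {s t : List (ℕ × ℕ)} (h : t <:+ s) (hs : H55Good g β s) (hne : s ≠ t) :
    h55rk g β s < h55rk g β t := by
  induction s with
  | nil =>
    rw [List.suffix_nil] at h
    exact (hne h.symm).elim
  | cons a s ih =>
    rcases List.suffix_cons_iff.1 h with rfl | h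
    · exact (hne rfl).elim
    · by_cases h1 : s = t
      · subst h1
        exact hs.1
      · exact lt_trans hs.1 (ih h hs.2 h1)

theorem h55_rk_le {s t : List (ℕ × ℕ)} (h : t <:+ s) (hs : H55Good g β s) :
    h55rk g β s ≤ h55rk g β t := by
  by_cases hne : s = t
  · rw [hne]
  · exact (h55_rk_lt h hs hne).le

/-- The points above `t`. -/
def h55cone (g : ℕ → Ordinal.{0}) (β : Ordinal.{0}) (t : List (ℕ × ℕ)) : Set (List (ℕ × ℕ)) :=
  {s | H55Good g β s ∧ t <:+ s}

/-- The clopen sets of the tree. -/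
def h55ring (g : ℕ → Ordinal.{0}) (β : Ordinal.{0}) : Set (Set (List (ℕ × ℕ))) :=
  {K | K ⊆ {s | H55Good g β s} ∧ ∀ t, H55Good g β t → ∃ F : Finset (List (ℕ × ℕ)),
    (∀ s ∈ F, H55Good g β s ∧ t <:+ s ∧ s ≠ t) ∧
    ((∀ u ∈ h55cone g β t, (∀ s ∈ F, ¬ s <:+ u) → u ∈ K) ∨
      ∀ u ∈ h55cone g β t, (∀ s ∈ F, ¬ s <:+ u) → u ∉ K)}

theorem h55_cone_mem {t : List (ℕ × ℕ)} (ht : H55Good g β t) : h55cone g β t ∈ h55ring g β := by
  refine ⟨fun s hs => hs.1, fun u hu => ?_⟩
  by_cases h1 : t <:+ u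
  · exact ⟨∅, by simp, Or.inl fun v hv _ => ⟨hv.1, h1.trans hv.2⟩⟩
  by_cases h2 : u <:+ t
  · refine ⟨{t}, ?_, Or.inr fun v _ hv' hv'' => hv' t (by simp) hv''.2⟩
    intro s hs
    rw [Finset.mem_singleton] at hs
    subst hs
    exact ⟨ht, h2, fun h => h1 (h ▸ List.suffix_rfl)⟩
  · refine ⟨∅, by simp, Or.inr fun v hv _ hv' => ?_⟩
    rcases List.suffix_or_suffix_of_suffix hv.2 hv'.2 with h | h
    · exact h2 h
    · exact h1 h

theorem h55_ring_union {K K' : Set (List (ℕ × ℕ))} (hK : K ∈ h55ring g β)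
    (hK' : K' ∈ h55ring g β) : K ∪ K' ∈ h55ring g β := by
  classical
  refine ⟨union_subset hK.1 hK'.1, fun t ht => ?_⟩
  obtain ⟨F, hF, h1⟩ := hK.2 t ht
  obtain ⟨F', hF', h2⟩ := hK'.2 t ht
  refine ⟨F ∪ F', fun s hs => (Finset.mem_union.1 hs).elim (hF s) (hF' s), ?_⟩
  rcases h1 with h1 | h1
  · exact Or.inl fun u hu h => Or.inl (h1 u hu fun s hs => h s (Finset.mem_union_left _ hs))
  rcases h2 with h2 | h2
  · exact Or.inl fun u hu h => Or.inr (h2 u hu fun s hs => h s (Finset.mem_union_right _ hs))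
  · refine Or.inr fun u hu h hK => hK.elim ?_ ?_
    · exact h1 u hu fun s hs => h s (Finset.mem_union_left _ hs)
    · exact h2 u hu fun s hs => h s (Finset.mem_union_right _ hs)

theorem h55_ring_diff {K K' : Set (List (ℕ × ℕ))} (hK : K ∈ h55ring g β)
    (hK' : K' ∈ h55ring g β) : K \ K' ∈ h55ring g β := by
  classical
  refine ⟨sdiff_subset.trans hK.1, fun t ht => ?_⟩
  obtain ⟨F, hF, h1⟩ := hK.2 t ht
  obtain ⟨F', hF', h2⟩ := hK'.2 t ht
  refine ⟨F ∪ F', fun s hs => (Finset.mem_union.1 hs).elim (hF s) (hF' s), ?_⟩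
  rcases h1 with h1 | h1
  · rcases h2 with h2 | h2
    · exact Or.inr fun u hu h hK => hK.2 (h2 u hu fun s hs => h s (Finset.mem_union_right _ hs))
    · exact Or.inl fun u hu h => ⟨h1 u hu fun s hs => h s (Finset.mem_union_left _ hs),
        h2 u hu fun s hs => h s (Finset.mem_union_right _ hs)⟩
  · exact Or.inr fun u hu h hK => h1 u hu (fun s hs => h s (Finset.mem_union_left _ hs)) hK.1

theorem h55_ring_top {K : Set (List (ℕ × ℕ))} (hK : K ∈ h55ring g β) :
    ∀ (ρ : Ordinal.{0}) (t : List (ℕ × ℕ)), H55Good g β t → h55rk g β t = ρ →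
      H55Top (h55rk g β) (K ∩ h55cone g β t) := by
  intro ρ
  induction ρ using WellFoundedLT.induction with
  | ind ρ ih =>
    intro t ht hρ
    obtain ⟨F, hF, h1 | h1⟩ := hK.2 t ht
    · intro _
      refine ⟨t, ⟨h1 t ⟨ht, List.suffix_rfl⟩ ?_, ht, List.suffix_rfl⟩, ?_, ?_⟩
      · intro s hs hst
        have h2 := hF s hs
        exact h2.2.2 (List.IsSuffix.eq_of_length hst
          (le_antisymm hst.length_le h2.2.1.length_le))
      · exact fun y hy => h55_rk_le hy.2.2 hy.2.1
      · refine (Set.finite_singleton t).subset ?_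
        rintro y ⟨hy, hy'⟩
        by_contra hne
        exact (h55_rk_lt hy.2.2 hy.2.1 hne).ne hy'
    · have h2 : K ∩ h55cone g β t = ⋃ s ∈ F, K ∩ h55cone g β s := by
        ext u
        simp only [mem_inter_iff, mem_iUnion, exists_prop]
        constructor
        · rintro ⟨hu, hu'⟩
          by_contra hcon
          refine h1 u hu' (fun s hs hsu => hcon ⟨s, hs, hu, hu'.1, hsu⟩) hu
        · rintro ⟨s, hs, hu, hu'⟩
          exact ⟨hu, hu'.1, (hF s hs).2.1.trans hu'.2⟩
      rw [h2]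
      refine h55_top_biUnion F _ fun s hs => ?_
      have h3 := hF s hs
      exact ih _ (hρ ▸ h55_rk_lt h3.2.1 h3.1 h3.2.2) s h3.1 rfl

theorem h55_tree_gr (hg : ∀ γ < β, ∃ k, g k = γ) :
    GR {s | H55Good g β s} (h55ring g β) (h55rk g β) where
  sub := fun K hK => hK.1
  emp := ⟨empty_subset _, fun t _ => ⟨∅, by simp, Or.inr fun _ _ _ h => h⟩⟩
  un := fun K hK K' hK' => h55_ring_union hK hK'
  df := fun K hK K' hK' => h55_ring_diff hK hK'
  cov := fun x hx => ⟨h55cone g β x, h55_cone_mem hx, hx, List.suffix_rfl⟩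
  sep := by
    intro x hx y hy hxy
    by_cases h : x <:+ y
    · refine ⟨h55cone g β x \ h55cone g β y, h55_ring_diff (h55_cone_mem hx) (h55_cone_mem hy),
        ⟨⟨hx, List.suffix_rfl⟩, fun h' => ?_⟩, fun h' => h'.2 ⟨hy, List.suffix_rfl⟩⟩
      exact hxy (List.IsSuffix.eq_of_length h (le_antisymm h.length_le h'.2.length_le))
    · exact ⟨h55cone g β x, h55_cone_mem hx, ⟨hx, List.suffix_rfl⟩, fun h' => h h'.2⟩
  top := by
    intro K hK hne
    have h1 : K ∩ h55cone g β [] = K :=
      inter_eq_left.2 fun u hu => ⟨hK.1 hu, List.nil_suffix⟩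
    have h2 := h55_ring_top hK _ [] trivial rfl
    rw [h1] at h2
    exact h2 hne
  ex := by
    intro K hK x hx γ hγ
    have hxg : H55Good g β x := hK.1 hx
    obtain ⟨F, hF, h1 | h1⟩ := hK.2 x hxg
    · have hγβ : γ < β := hγ.trans_le (h55_rk_le (t := []) List.nil_suffix hxg)
      obtain ⟨k, rfl⟩ := hg γ hγβ
      -- choose a child which is not in F
      obtain ⟨n, hn⟩ : ∃ n : ℕ, ((n, k) :: x) ∉ F := by
        by_contra hcon
        push Not at hcon
        have hinj : Function.Injective (fun n : ℕ => ((n, k) :: x : List (ℕ × ℕ))) := by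
          intro a b hab
          simpa using hab
        exact Set.infinite_range_of_injective hinj
          ((F.finite_toSet).subset (by rintro _ ⟨n, rfl⟩; exact hcon n))
      have hgood : H55Good g β ((n, k) :: x) := ⟨hγ, hxg⟩
      refine ⟨(n, k) :: x, h1 _ ⟨hgood, List.suffix_cons _ _⟩ ?_, by simp, le_rfl⟩
      intro s hs hsu
      rcases List.suffix_cons_iff.1 hsu with rfl | h2
      · exact hn hs
      · have h3 := hF s hs
        exact h3.2.2 (List.IsSuffix.eq_of_length h2 (le_antisymm h2.length_le h3.2.1.length_le))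
    · refine (h1 x ⟨hxg, List.suffix_rfl⟩ ?_ hx).elim
      intro s hs hsu
      have h3 := hF s hs
      exact h3.2.2 (List.IsSuffix.eq_of_length hsu (le_antisymm hsu.length_le h3.2.1.length_le))

end Tree

end Pool.Agent.Helper33.QB
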